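import Mathlib
import Pool.Agent.X320.Elem

/-!
# Elementary components of Hilbert schemes of points of affine three-space

Over every algebraically closed field there are infinitely many elementary components of the
Hilbert schemes of points of affine `3`-space.
-/

set_option autoImplicit false

open AlgebraicGeometry

universe u

namespace Pool.Agent.Results.MP_5ec99c_ag.InfinitelyMany

open Pool.Agent.Helper226

/-- The subset `C` of the Hilbert scheme `𝓗` of `r` points of affine `n`-space is an elementary
irreducible component: it is an irreducible component of the underlying space, and it has a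
nonempty relatively open subset `C ∩ O` all of whose `k`-points correspond to subschemes whose
support is exactly one point of affine `n`-space. -/
def IsElementary {k : Type u} [Field k] {n r : ℕ}
    (𝓗 : HilbertScheme k (MvPolynomial (Fin n) k) r) (C : Set 𝓗.H) : Prop :=
  C ∈ irreducibleComponents 𝓗.H ∧
  ∃ O : Set 𝓗.H, IsOpen O ∧ (C ∩ O).Nonempty ∧
    ∀ f : PointsOver k 𝓗.H 𝓗.s k, Set.range f.1 ⊆ C ∩ O →
      ∃! a : Fin n → k, ∀ g ∈ 𝓗.idealOf f, MvPolynomial.eval a g = 0

/-- Let `k` be an algebraically closed field of any characteristic.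
(1) For every `r` the Hilbert scheme of `r` points of affine `3`-space exists, as a scheme over `k`
representing the functor of families of length `r`.
(2) The set of the pairs `(r, C)`, where `r ≥ 1` and `C` is an elementary irreducible component of
the Hilbert scheme of `r` points of affine `3`-space, is infinite.
(3) More precisely, for every `R` there is a length `r` with `R < r ≤ 28 (84 R + 29) ^ 3` for which
the Hilbert scheme of `r` points of affine `3`-space has an elementary component. -/
theorem result (k : Type u) [Field k] [IsAlgClosed k] :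
    (∀ r : ℕ, Nonempty (HilbertScheme k (MvPolynomial (Fin 3) k) r)) ∧
    (∀ 𝓗 : ∀ r : ℕ, HilbertScheme k (MvPolynomial (Fin 3) k) r,
      {p : Σ r : ℕ, Set (𝓗 r).H | 1 ≤ p.1 ∧ IsElementary (𝓗 p.1) p.2}.Infinite) ∧
    (∀ R : ℕ, ∃ r : ℕ, R < r ∧ r ≤ 28 * (84 * R + 29) ^ 3 ∧
      ∀ 𝓗 : HilbertScheme k (MvPolynomial (Fin 3) k) r, ∃ C : Set 𝓗.H, IsElementary 𝓗 C) := by
  refine ⟨fun r => ⟨hilb k _ r⟩, fun 𝓗 hfin => ?_, fun R => X320.exists_elementary k R⟩
  obtain ⟨N, hN⟩ := (hfin.image Sigma.fst).bddAbove
  obtain ⟨r, h1, -, h3⟩ := X320.exists_elementary k N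
  obtain ⟨C, hC⟩ := h3 (𝓗 r)
  have h4 : r ≤ N := hN ⟨⟨r, C⟩, ⟨by change 1 ≤ r; omega, hC⟩, rfl⟩
  omega

end Pool.Agent.Results.MP_5ec99c_ag.InfinitelyMany
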